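import Mathlib

/-!
# The 2-broadcast domination number of a tree is at most `(2n+4)/3`

A tree with a longest path of `N` vertices is reduced to a statement on the path with heights
`h t`; the path is cut at positions crossed by no interval `[t - h t, t + h t]`, a greedy choice of
cuts gives pieces of odd length, and two staggered families of balls over triples of pieces do the
rest.
-/

set_option autoImplicit false

namespace Pool.Agent.Results.MP_888150_co.TreeTwoBroadcast

open Finset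

/-! ### The one dimensional statement -/

/-- the cut before position `p` is crossed by no interval `[t - h t, t + h t]` -/
def Unc (N : ℕ) (h : ℕ → ℕ) (p : ℕ) : Prop := ∀ t, t < N → t + h t < p ∨ p + h t ≤ t

/-- the ball with centre `c` of the assignment `F` covers `[t - h t, t + h t]` -/
def Cov (N : ℕ) (h : ℕ → ℕ) (F : ℕ → ℕ) (c t : ℕ) : Prop :=
  c < N ∧ 0 < F c ∧ t + h t ≤ c + F c ∧ c + h t ≤ t + F c

/-- adding a ball -/
def addB (F : ℕ → ℕ) (c r : ℕ) : ℕ → ℕ := fun x => F x + if x = c then r else 0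

theorem addB_sum (N : ℕ) (F : ℕ → ℕ) (c r : ℕ) (hc : c < N) :
    ∑ x ∈ range N, addB F c r x = (∑ x ∈ range N, F x) + r := by
  unfold addB
  rw [sum_add_distrib, sum_ite_eq' (range N) c (fun _ => r), if_pos (mem_range.mpr hc)]

theorem addB_new (F : ℕ → ℕ) (c r : ℕ) (h0 : F c = 0) : addB F c r c = r := by
  simp [addB, h0]

theorem addB_old (F : ℕ → ℕ) (c r x : ℕ) (hx : x ≠ c) : addB F c r x = F x := by
  simp [addB, hx]

theorem cov_old {N : ℕ} {h : ℕ → ℕ} {F : ℕ → ℕ} {c r x t : ℕ} (h0 : F c = 0)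
    (hx : Cov N h F x t) : Cov N h (addB F c r) x t ∧ x ≠ c := by
  have hne : x ≠ c := by
    rintro rfl
    have := hx.2.1
    omega
  refine ⟨?_, hne⟩
  unfold Cov at hx ⊢
  rw [addB_old F c r x hne]
  exact hx

theorem cov_new {N : ℕ} {h : ℕ → ℕ} {F : ℕ → ℕ} {c r a b t : ℕ} (h0 : F c = 0)
    (ha : Unc N h a) (hb : Unc N h b) (hat : a ≤ t) (htb : t < b) (htN : t < N)
    (hc : c < N) (hr : 0 < r) (h1 : c ≤ a + r) (h2 : b ≤ c + r + 1) :
    Cov N h (addB F c r) c t := by
  unfold Cov
  rw [addB_new F c r h0]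
  have h3 := ha t htN
  have h4 := hb t htN
  refine ⟨hc, hr, ?_, ?_⟩ <;> omega

/-- a position count: if no cut at odd distance from `s` is uncrossed then the heights are large -/
theorem count_cross (N : ℕ) (h : ℕ → ℕ) (s e : ℕ) (hse : s ≤ e) (heN : e ≤ N)
    (hs : Unc N h s) (he : Unc N h e)
    (hc : ∀ p, s < p → p < e → (p - s) % 2 = 1 → ¬ Unc N h p) :
    (e - s) / 2 ≤ ∑ t ∈ Ico s e, h t := by
  classical
  set m := (e - s) / 2 with hm
  have hsub : range m ⊆ (Ico s e).biUnion
      (fun t => (range m).filter (fun j => t < s + 1 + 2 * j + h t ∧ s + 1 + 2 * j ≤ t + h t)) := by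
    intro j hj
    rw [mem_range] at hj
    have h1 := hc (s + 1 + 2 * j) (by omega) (by omega) (by omega)
    unfold Unc at h1
    push Not at h1
    obtain ⟨t, htN, ht1, ht2⟩ := h1
    rw [mem_biUnion]
    have h2 := hs t htN
    have h3 := he t htN
    refine ⟨t, ?_, ?_⟩
    · rw [mem_Ico]; omega
    · rw [mem_filter, mem_range]; omega
  have h1 := card_le_card hsub
  rw [card_range] at h1
  refine h1.trans (card_biUnion_le.trans (sum_le_sum ?_))
  intro t ht
  rw [mem_Ico] at ht
  have h2 := hs t (by omega)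
  have h3 : s + h t ≤ t := by omega
  have h4 : (range m).filter (fun j => t < s + 1 + 2 * j + h t ∧ s + 1 + 2 * j ≤ t + h t) ⊆
      Ico ((t - s - h t + 1) / 2) ((t - s - h t + 1) / 2 + h t) := by
    intro j hj
    rw [mem_filter] at hj
    rw [mem_Ico]
    omega
  refine (card_le_card h4).trans ?_
  rw [Nat.card_Ico]
  omega

/-- the greedy chain of cuts with odd gaps -/
theorem chain_exists (N : ℕ) (h : ℕ → ℕ) (hN : Unc N h N) :
    ∀ m s : ℕ, N - s = m → s ≤ N → Unc N h s →
      ∃ (q : ℕ) (σ : ℕ → ℕ), σ 0 = s ∧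
        (∀ i < q, ∃ a, σ (i + 1) = σ i + 2 * a + 1) ∧
        (∀ i ≤ q, Unc N h (σ i)) ∧ (∃ a, N = σ q + 2 * a) ∧
        N - s ≤ q + 2 * ∑ t ∈ Ico s N, h t := by
  classical
  intro m
  induction m using Nat.strong_induction_on with
  | _ m ih =>
    intro s hm hsN hs
    by_cases hex : ∃ p, s < p ∧ p ≤ N ∧ (p - s) % 2 = 1 ∧ Unc N h p
    · set p := Nat.find hex with hp
      obtain ⟨hp1, hp2, hp3, hp4⟩ := Nat.find_spec hex
      have hmin : ∀ r, s < r → r < p → (r - s) % 2 = 1 → ¬ Unc N h r := by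
        intro r hr1 hr2 hr3 hr4
        exact Nat.find_min hex hr2 ⟨hr1, by omega, hr3, hr4⟩
      obtain ⟨q, σ, h0, h1, h2, h3, h5⟩ := ih (N - p) (by omega) p rfl hp2 hp4
      have hcount := count_cross N h s p hp1.le hp2 hs hp4 hmin
      have hsum : ∑ t ∈ Ico s N, h t = ∑ t ∈ Ico s p, h t + ∑ t ∈ Ico p N, h t :=
        (sum_Ico_consecutive h hp1.le hp2).symm
      refine ⟨q + 1, fun i => if i = 0 then s else σ (i - 1), by simp, ?_, ?_, ?_, ?_⟩
      · intro i hi
        by_cases hi0 : i = 0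
        · subst hi0
          simp only [if_true, Nat.zero_add, one_ne_zero, if_false, Nat.sub_self, h0]
          exact ⟨(p - s) / 2, by omega⟩
        · have h6 := h1 (i - 1) (by omega)
          have h7 : i - 1 + 1 = i := by omega
          rw [h7] at h6
          simp only [hi0, if_false, Nat.succ_ne_zero, Nat.add_sub_cancel]
          exact h6
      · intro i hi
        by_cases hi0 : i = 0
        · simp only [hi0, if_true]; exact hs
        · simp only [hi0, if_false]; exact h2 _ (by omega)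
      · simp only [Nat.succ_ne_zero, if_false, Nat.add_sub_cancel]; exact h3
      · rw [hsum]; omega
    · push Not at hex
      have hpar : (N - s) % 2 = 0 := by
        by_contra hodd
        exact hex N (by omega) le_rfl (by omega) hN
      have hcount := count_cross N h s N hsN le_rfl hs hN
        (fun p h1 h2 h3 => hex p h1 h2.le h3)
      have hNs : N = s + 2 * ((N - s) / 2) := by omega
      exact ⟨0, fun _ => s, rfl, by simp, fun i _ => hs, ⟨(N - s) / 2, hNs⟩, by omega⟩

/-- the two layers: one covers from `x` on, the other from `y` on, at cost at most `B / 6` -/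
def Lay (N : ℕ) (h : ℕ → ℕ) (x y B : ℕ) : Prop := ∃ F : ℕ → ℕ,
  (∀ c, F c ≠ 0 → c < N ∧ F c < N ∧ x + y ≤ 2 * c) ∧
  (∀ t, x ≤ t → t < N → ∃ c, Cov N h F c t) ∧
  (∀ t, y ≤ t → t < N → ∃ c₁ c₂, c₁ ≠ c₂ ∧ Cov N h F c₁ t ∧ Cov N h F c₂ t) ∧
  6 * (∑ x ∈ range N, F x) ≤ B

theorem zero_sum (N : ℕ) : ∑ x ∈ range N, (fun _ : ℕ => 0) x = 0 := by simp

theorem zero_supp {c r x : ℕ} (hx : addB (fun _ => 0) c r x ≠ 0) : x = c := by
  by_contra hne
  exact hx (by rw [addB_old _ _ _ _ hne])

theorem lay2 (N : ℕ) (h : ℕ → ℕ) (x a : ℕ) (hN : N = x + 2 * a + 2) (hx : Unc N h x)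
    (hU : Unc N h N) : Lay N h x N (6 * (a + 1)) := by
  refine ⟨addB (fun _ => 0) (x + a + 1) (a + 1), ?_, ?_, ?_, ?_⟩
  · intro c hc
    have hcc := zero_supp hc
    subst hcc
    rw [addB_new _ _ _ rfl]
    omega
  · intro t ht1 ht2
    exact ⟨x + a + 1, cov_new rfl hx hU ht1 ht2 ht2 (by omega) (by omega) (by omega) (by omega)⟩
  · intro t ht1 ht2; omega
  · rw [addB_sum _ _ _ _ (by omega), zero_sum]
    omega

theorem lay3 (N : ℕ) (h : ℕ → ℕ) (x y a m : ℕ) (hy : y = x + 2 * a + 2) (hN : N = y + 2 * m + 1)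
    (hx : Unc N h x) (hy' : Unc N h y) (hU : Unc N h N) :
    Lay N h x y (6 * (a + m + 1) + 6 * (m + 1)) := by
  obtain ⟨r, hr1, hr2, hr3⟩ : ∃ r, 1 ≤ r ∧ m ≤ r ∧ r ≤ m + 1 := ⟨max 1 m, by omega, by omega, by omega⟩
  have hne : y + m ≠ x + a + m + 1 := by omega
  have z2 : addB (fun _ => 0) (x + a + m + 1) (a + m + 1) (y + m) = 0 := by
    rw [addB_old _ _ _ _ hne]
  refine ⟨addB (addB (fun _ => 0) (x + a + m + 1) (a + m + 1)) (y + m) r, ?_, ?_, ?_, ?_⟩
  · intro c hc
    by_cases hc2 : c = y + m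
    · subst hc2
      rw [addB_new _ _ _ z2]
      omega
    · rw [addB_old _ _ _ _ hc2] at hc ⊢
      have hcc := zero_supp hc
      subst hcc
      rw [addB_new _ _ _ rfl]
      omega
  · intro t ht1 ht2
    exact ⟨x + a + m + 1, (cov_old z2 (cov_new rfl hx hU ht1 ht2 ht2 (by omega) (by omega)
      (by omega) (by omega))).1⟩
  · intro t ht1 ht2
    refine ⟨x + a + m + 1, y + m, hne.symm, (cov_old z2 (cov_new rfl hx hU (by omega) ht2 ht2
      (by omega) (by omega) (by omega) (by omega))).1, ?_⟩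
    exact cov_new z2 hy' hU ht1 ht2 ht2 (by omega) (by omega) (by omega) (by omega)
  · rw [addB_sum _ _ _ _ (by omega), addB_sum _ _ _ _ (by omega), zero_sum]
    omega

theorem lay4 (N : ℕ) (h : ℕ → ℕ) (x y z a b m : ℕ) (hy : y = x + 2 * a + 2)
    (hz : z = y + 2 * b + 1) (hN : N = z + 2 * m + 1)
    (hx : Unc N h x) (hy' : Unc N h y) (hz' : Unc N h z) (hU : Unc N h N) :
    Lay N h x y (6 * (a + b + 1) + 6 * (b + m + 1) + 6 * (m + 1)) := by
  obtain ⟨r, hr1, hr2, hr3⟩ : ∃ r, 1 ≤ r ∧ m ≤ r ∧ r ≤ m + 1 := ⟨max 1 m, by omega, by omega, by omega⟩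
  obtain ⟨c1, hc1⟩ : ∃ c1, c1 = x + a + b + 1 := ⟨_, rfl⟩
  obtain ⟨c2, hc2⟩ : ∃ c2, c2 = y + b + m := ⟨_, rfl⟩
  obtain ⟨c3, hc3⟩ : ∃ c3, c3 = z + m := ⟨_, rfl⟩
  have hne12 : c2 ≠ c1 := by omega
  have hne13 : c3 ≠ c1 := by omega
  have hne23 : c3 ≠ c2 := by omega
  have z2 : addB (fun _ => 0) c1 (a + b + 1) c2 = 0 := by rw [addB_old _ _ _ _ hne12]
  have z3 : addB (addB (fun _ => 0) c1 (a + b + 1)) c2 (b + m + 1) c3 = 0 := by
    rw [addB_old _ _ _ _ hne23, addB_old _ _ _ _ hne13]
  refine ⟨addB (addB (addB (fun _ => 0) c1 (a + b + 1)) c2 (b + m + 1)) c3 r, ?_, ?_, ?_, ?_⟩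
  · intro c hc
    by_cases hx3 : c = c3
    · subst hx3
      rw [addB_new _ _ _ z3]
      omega
    · rw [addB_old _ _ _ _ hx3] at hc ⊢
      by_cases hx2 : c = c2
      · subst hx2
        rw [addB_new _ _ _ z2]
        omega
      · rw [addB_old _ _ _ _ hx2] at hc ⊢
        have hcc := zero_supp hc
        subst hcc
        rw [addB_new _ _ _ rfl]
        omega
  · intro t ht1 ht2
    by_cases ht3 : t < z
    · exact ⟨c1, (cov_old z3 (cov_old z2 (cov_new rfl hx hz' ht1 ht3 ht2 (by omega)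
        (by omega) (by omega) (by omega))).1).1⟩
    · exact ⟨c3, cov_new z3 hz' hU (by omega) ht2 ht2 (by omega) (by omega) (by omega)
        (by omega)⟩
  · intro t ht1 ht2
    have hcc2 : Cov N h (addB (addB (addB (fun _ => 0) c1 (a + b + 1)) c2 (b + m + 1)) c3 r) c2 t :=
      (cov_old z3 (cov_new z2 hy' hU ht1 ht2 ht2 (by omega) (by omega) (by omega)
        (by omega))).1
    by_cases ht3 : t < z
    · exact ⟨c1, c2, hne12.symm, (cov_old z3 (cov_old z2 (cov_new rfl hx hz' (by omega) ht3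
        ht2 (by omega) (by omega) (by omega) (by omega))).1).1, hcc2⟩
    · exact ⟨c3, c2, hne23, cov_new z3 hz' hU (by omega) ht2 ht2 (by omega) (by omega)
        (by omega) (by omega), hcc2⟩
  · rw [addB_sum _ _ _ _ (by omega), addB_sum _ _ _ _ (by omega),
      addB_sum _ _ _ _ (by omega), zero_sum]
    omega

theorem lay_step (N : ℕ) (h : ℕ → ℕ) (x y z w a b e B : ℕ) (hy : y = x + 2 * a + 2)
    (hz : z = y + 2 * b + 1) (hw : w = z + 2 * e + 2) (hwN : w ≤ N)
    (hx : Unc N h x) (hy' : Unc N h y) (hz' : Unc N h z) (hw' : Unc N h w)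
    (hL : Lay N h z w B) :
    Lay N h x y (B + 6 * (a + b + 1) + 6 * (b + e + 1)) := by
  obtain ⟨F, f1, f2, f3, f4⟩ := hL
  obtain ⟨c1, hc1⟩ : ∃ c1, c1 = x + a + b + 1 := ⟨_, rfl⟩
  obtain ⟨c2, hc2⟩ : ∃ c2, c2 = y + b + e + 1 := ⟨_, rfl⟩
  have hne : c2 ≠ c1 := by omega
  have z1 : F c1 = 0 := by
    by_contra hF
    have := (f1 c1 hF).2.2
    omega
  have z2' : F c2 = 0 := by
    by_contra hF
    have := (f1 c2 hF).2.2
    omega
  have z2 : addB F c1 (a + b + 1) c2 = 0 := by rw [addB_old _ _ _ _ hne, z2']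
  refine ⟨addB (addB F c1 (a + b + 1)) c2 (b + e + 1), ?_, ?_, ?_, ?_⟩
  · intro c hc
    by_cases hx2 : c = c2
    · subst hx2
      rw [addB_new _ _ _ z2]
      omega
    · rw [addB_old _ _ _ _ hx2] at hc ⊢
      by_cases hx1 : c = c1
      · subst hx1
        rw [addB_new _ _ _ z1]
        omega
      · rw [addB_old _ _ _ _ hx1] at hc ⊢
        have := f1 c hc
        omega
  · intro t ht1 ht2
    by_cases ht3 : t < z
    · exact ⟨c1, (cov_old z2 (cov_new z1 hx hz' ht1 ht3 ht2 (by omega) (by omega) (by omega)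
        (by omega))).1⟩
    · obtain ⟨c, hc⟩ := f2 t (by omega) ht2
      exact ⟨c, (cov_old z2 (cov_old z1 hc).1).1⟩
  · intro t ht1 ht2
    by_cases ht5 : t < w
    · have hcc2 : Cov N h (addB (addB F c1 (a + b + 1)) c2 (b + e + 1)) c2 t :=
        cov_new z2 hy' hw' ht1 ht5 ht2 (by omega) (by omega) (by omega) (by omega)
      by_cases ht3 : t < z
      · exact ⟨c1, c2, hne.symm, (cov_old z2 (cov_new z1 hx hz' (by omega) ht3 ht2 (by omega)
          (by omega) (by omega) (by omega))).1, hcc2⟩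
      · obtain ⟨c, hc⟩ := f2 t (by omega) ht2
        have hc' := cov_old (r := b + e + 1) z2 (cov_old (r := a + b + 1) z1 hc).1
        exact ⟨c, c2, hc'.2, hc'.1, hcc2⟩
    · obtain ⟨p, p', hab, hp, hp'⟩ := f3 t (by omega) ht2
      exact ⟨p, p', hab, (cov_old z2 (cov_old z1 hp).1).1, (cov_old z2 (cov_old z1 hp').1).1⟩
  · rw [addB_sum _ _ _ _ (by omega), addB_sum _ _ _ _ (by omega)]
    omega

theorem lay_mono {N : ℕ} {h : ℕ → ℕ} {x y B B' : ℕ} (hL : Lay N h x y B) (hB : B ≤ B') :
    Lay N h x y B' := by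
  obtain ⟨F, f1, f2, f3, f4⟩ := hL
  exact ⟨F, f1, f2, f3, f4.trans hB⟩

/-- the recursion for the two staggered layers -/
theorem layers (N : ℕ) (h : ℕ → ℕ) (q : ℕ) (σ : ℕ → ℕ)
    (h1 : ∀ i < q, ∃ a, σ (i + 1) = σ i + 2 * a + 1)
    (h2 : ∀ i ≤ q, Unc N h (σ i)) (h2' : ∀ i ≤ q, σ i ≤ N) (h3 : σ q = N) :
    ∀ k i : ℕ, 2 ≤ k → i + k = q → ∃ B, Lay N h (σ i) (σ (i + 2)) B ∧
      B + 2 * k ≤ 3 * (N - σ i) + 3 * (N - σ (i + 2)) + 8 := by
  intro k
  induction k using Nat.strong_induction_on with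
  | _ k ih =>
    intro i hk hik
    have huN : Unc N h N := by
      have h4 := h2 q le_rfl
      rwa [h3] at h4
    have hu0 := h2 i (by omega)
    have hu2 := h2 (i + 2) (by omega)
    obtain ⟨a0, ha0⟩ := h1 i (by omega)
    obtain ⟨a1, ha1⟩ := h1 (i + 1) (by omega)
    have ha1' : σ (i + 2) = σ (i + 1) + 2 * a1 + 1 := ha1
    clear ha1
    have hy : σ (i + 2) = σ i + 2 * (a0 + a1) + 2 := by omega
    rcases Nat.lt_or_ge k 5 with hk5 | hk5
    · have hcases : k = 2 ∨ k = 3 ∨ k = 4 := by omega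
      rcases hcases with hk' | hk' | hk'
      · have eN : σ (i + 2) = N := by rw [← hk', hik, h3]
        have hL := lay2 N h (σ i) (a0 + a1) (by omega) hu0 huN
        rw [← eN] at hL
        refine ⟨6 * (a0 + a1 + 1), ?_, ?_⟩
        · rw [← eN]; exact hL
        · clear ih h1 h2 h2' hL
          omega
      · have eN : σ (i + 3) = N := by rw [← hk', hik, h3]
        obtain ⟨a2, ha2⟩ := h1 (i + 2) (by omega)
        have ha2' : σ (i + 3) = σ (i + 2) + 2 * a2 + 1 := ha2
        clear ha2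
        rw [eN] at ha2'
        have hL := lay3 N h (σ i) (σ (i + 2)) (a0 + a1) a2 hy ha2' hu0 hu2 huN
        refine ⟨_, hL, ?_⟩
        clear ih h1 h2 h2' hL
        omega
      · have eN : σ (i + 4) = N := by rw [← hk', hik, h3]
        obtain ⟨a2, ha2⟩ := h1 (i + 2) (by omega)
        obtain ⟨a3, ha3⟩ := h1 (i + 3) (by omega)
        have ha2' : σ (i + 3) = σ (i + 2) + 2 * a2 + 1 := ha2
        have ha3' : σ (i + 4) = σ (i + 3) + 2 * a3 + 1 := ha3
        clear ha2 ha3
        rw [eN] at ha3'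
        have hu3 := h2 (i + 3) (by omega)
        have hL := lay4 N h (σ i) (σ (i + 2)) (σ (i + 3)) (a0 + a1) a2 a3 hy ha2' ha3' hu0 hu2 hu3 huN
        refine ⟨_, hL, ?_⟩
        clear ih h1 h2 h2' hL
        omega
    · obtain ⟨B, hB, hB'⟩ := ih (k - 3) (by omega) (i + 3) (by omega) (by omega)
      obtain ⟨a2, ha2⟩ := h1 (i + 2) (by omega)
      obtain ⟨a3, ha3⟩ := h1 (i + 3) (by omega)
      obtain ⟨a4, ha4⟩ := h1 (i + 4) (by omega)
      have ha2' : σ (i + 3) = σ (i + 2) + 2 * a2 + 1 := ha2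
      have ha3' : σ (i + 4) = σ (i + 3) + 2 * a3 + 1 := ha3
      have ha4' : σ (i + 5) = σ (i + 4) + 2 * a4 + 1 := ha4
      clear ha2 ha3 ha4
      have hw : σ (i + 5) = σ (i + 3) + 2 * (a3 + a4) + 2 := by omega
      have hu3 := h2 (i + 3) (by omega)
      have hu5 := h2 (i + 5) (by omega)
      have h5N := h2' (i + 5) (by omega)
      have e5 : i + 3 + 2 = i + 5 := by omega
      rw [e5] at hB hB'
      have hL := lay_step N h (σ i) (σ (i + 2)) (σ (i + 3)) (σ (i + 5)) (a0 + a1) a2 (a3 + a4) B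
        hy ha2' hw h5N hu0 hu2 hu3 hu5 hB
      refine ⟨_, hL, ?_⟩
      clear ih h1 h2 h2' hL hB
      omega

/-- the one dimensional theorem -/
theorem path_theorem (N : ℕ) (h : ℕ → ℕ) (hN : 2 ≤ N)
    (hl : ∀ t < N, h t ≤ t) (hr : ∀ t < N, t + h t < N) :
    ∃ F : ℕ → ℕ, (∀ c, F c < N) ∧
      (∀ t, t < N → ∃ c₁ c₂, c₁ ≠ c₂ ∧ Cov N h F c₁ t ∧ Cov N h F c₂ t) ∧
      3 * (∑ x ∈ range N, F x) ≤ 2 * (∑ t ∈ range N, (1 + h t)) + 4 := by
  have hU0 : Unc N h 0 := fun t ht => Or.inr (by have := hl t ht; omega)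
  have hUN : Unc N h N := fun t ht => Or.inl (hr t ht)
  obtain ⟨q, σ, e0, e1, e2, ⟨b, e3⟩, e5⟩ := chain_exists N h hUN N 0 (by omega) (by omega) hU0
  have hW : ∑ t ∈ range N, (1 + h t) = N + ∑ t ∈ Ico 0 N, h t := by
    rw [sum_add_distrib, ← range_eq_Ico]
    simp
  rw [hW]
  by_cases hq : q ≤ 4
  · -- the radial pair
    obtain ⟨c, hc⟩ : ∃ c, c = (N - 1) / 2 := ⟨_, rfl⟩
    obtain ⟨r, hr'⟩ : ∃ r, r = N / 2 := ⟨_, rfl⟩
    obtain ⟨r', hr''⟩ : ∃ r', r' = (N + 1) / 2 := ⟨_, rfl⟩
    have z2 : addB (fun _ => 0) c r (c + 1) = 0 := by rw [addB_old _ _ _ _ (by omega)]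
    refine ⟨addB (addB (fun _ => 0) c r) (c + 1) r', ?_, ?_, ?_⟩
    · intro x
      by_cases hx2 : x = c + 1
      · subst hx2
        rw [addB_new _ _ _ z2]
        omega
      · rw [addB_old _ _ _ _ hx2]
        by_cases hx1 : x = c
        · subst hx1
          rw [addB_new _ _ _ rfl]
          omega
        · rw [addB_old _ _ _ _ hx1]
          omega
    · intro t ht
      refine ⟨c, c + 1, by omega, ?_, ?_⟩
      · exact (cov_old z2 (cov_new rfl hU0 hUN (by omega) ht ht (by omega) (by omega) (by omega)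
          (by omega))).1
      · exact cov_new z2 hU0 hUN (by omega) ht ht (by omega) (by omega) (by omega) (by omega)
    · rw [addB_sum _ _ _ _ (by omega), addB_sum _ _ _ _ (by omega), zero_sum]
      omega
  · push Not at hq
    -- close the chain at N
    obtain ⟨τ, hτ⟩ : ∃ τ : ℕ → ℕ, τ = fun i => if i = q then N else σ i := ⟨_, rfl⟩
    have hτq : τ q = N := by simp [hτ]
    have hτo : ∀ i, i ≠ q → τ i = σ i := fun i hi => by simp [hτ, hi]
    have t1 : ∀ i < q, ∃ a, τ (i + 1) = τ i + 2 * a + 1 := by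
      intro i hi
      obtain ⟨a, g⟩ := e1 i hi
      rw [hτo i (by omega)]
      by_cases hi1 : i + 1 = q
      · rw [hi1, hτq]
        rw [hi1] at g
        exact ⟨a + b, by omega⟩
      · rw [hτo (i + 1) hi1]
        exact ⟨a, g⟩
    have t2 : ∀ i ≤ q, Unc N h (τ i) := by
      intro i hi
      by_cases hiq : i = q
      · rw [hiq, hτq]; exact hUN
      · rw [hτo i hiq]; exact e2 i hi
    have t2' : ∀ j i, i + j = q → τ i ≤ N := by
      intro j
      induction j with
      | zero => intro i hi; rw [Nat.add_zero] at hi; rw [hi, hτq]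
      | succ j ih =>
        intro i hi
        obtain ⟨a, g⟩ := t1 i (by omega)
        have := ih (i + 1) (by omega)
        omega
    obtain ⟨B, ⟨F, f1, f2, f3, f4⟩, hB⟩ := layers N h q τ t1 t2
      (fun i hi => t2' (q - i) i (by omega)) hτq q 0 (by omega) (by omega)
    have hτ0 : τ 0 = 0 := by rw [hτo 0 (by omega), e0]
    obtain ⟨a0, g0⟩ := t1 0 (by omega)
    obtain ⟨a1, g1⟩ := t1 1 (by omega)
    have g0' : τ 1 = τ 0 + 2 * a0 + 1 := g0
    have g1' : τ 2 = τ 1 + 2 * a1 + 1 := g1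
    have hu2 : Unc N h (τ 2) := t2 2 (by omega)
    have h2N : τ 2 ≤ N := t2' (q - 2) 2 (by omega)
    simp only [zero_add] at f1 f3 hB
    obtain ⟨r, hr'⟩ : ∃ r, r = a0 + a1 + 1 := ⟨_, rfl⟩
    obtain ⟨c, hc⟩ : ∃ c, c = a0 + a1 := ⟨_, rfl⟩
    have z : F c = 0 := by
      by_contra hF
      have := (f1 c hF).2.2
      omega
    refine ⟨addB F c r, ?_, ?_, ?_⟩
    · intro x
      by_cases hx : x = c
      · subst hx
        rw [addB_new _ _ _ z]
        omega
      · rw [addB_old _ _ _ _ hx]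
        by_cases hF : F x = 0
        · omega
        · exact (f1 x hF).2.1
    · intro t ht
      by_cases ht2 : t < τ 2
      · obtain ⟨c', hc'⟩ := f2 t (by omega) ht
        have h6 := cov_old (r := r) z hc'
        exact ⟨c', c, h6.2, h6.1, cov_new z hU0 hu2 (by omega) ht2 ht (by omega) (by omega)
          (by omega) (by omega)⟩
      · obtain ⟨a, b, hab, ha, hb⟩ := f3 t (by omega) ht
        exact ⟨a, b, hab, (cov_old z ha).1, (cov_old z hb).1⟩
    · rw [addB_sum _ _ _ _ (by omega)]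
      clear t1 t2 t2' f1 f2 f3 hτo hW e1 e2 hu2 hU0 hUN hl hr
      omega

/-! ### Trees -/

/-- A broadcast takes values at most the diameter; it is a dominating 2-broadcast when every vertex
hears at least two distinct vertices of positive value. -/
def IsDominating2Broadcast {V : Type*} (G : SimpleGraph V) (f : V → ℕ) : Prop :=
  (∀ v, f v ≤ G.diam) ∧
    ∀ u, ∃ v₁ v₂, v₁ ≠ v₂ ∧ 0 < f v₁ ∧ 0 < f v₂ ∧ G.dist u v₁ ≤ f v₁ ∧ G.dist u v₂ ≤ f v₂

/-- the 2-broadcast domination number: the least cost of a dominating 2-broadcast -/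
noncomputable def gammaB2 {V : Type*} [Fintype V] (G : SimpleGraph V) : ℕ :=
  sInf {c | ∃ f : V → ℕ, IsDominating2Broadcast G f ∧ ∑ v, f v = c}

section tree

variable {V : Type*} {G : SimpleGraph V}

theorem closer_unique (hG : G.IsTree) {r y z z' : V} (hz : G.Adj z y) (hz' : G.Adj z' y)
    (h : G.dist r z + 1 = G.dist r y) (h' : G.dist r z' + 1 = G.dist r y) : z = z' := by
  obtain ⟨p, hp, hpl⟩ := hG.connected.exists_path_of_dist r z
  obtain ⟨p', hp', hpl'⟩ := hG.connected.exists_path_of_dist r z'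
  have h1 : (p.concat hz).IsPath := by
    apply SimpleGraph.Walk.isPath_of_length_eq_dist
    rw [SimpleGraph.Walk.length_concat, hpl, h]
  have h2 : (p'.concat hz').IsPath := by
    apply SimpleGraph.Walk.isPath_of_length_eq_dist
    rw [SimpleGraph.Walk.length_concat, hpl', h']
  have h3 : (⟨p.concat hz, h1⟩ : G.Path r y) = ⟨p'.concat hz', h2⟩ :=
    (hG.isAcyclic.subsingleton_path r y).elim _ _
  have h4 := congrArg (fun q : G.Path r y => q.1.penultimate) h3
  simpa using h4

theorem exists_closer (hG : G.Connected) {x w : V} {k : ℕ} (h : G.dist x w = k + 1) :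
    ∃ y, G.Adj x y ∧ G.dist y w = k := by
  obtain ⟨p, hp⟩ := hG.exists_walk_length_eq_dist x w
  rw [h] at hp
  cases p with
  | nil => simp at hp
  | cons hadj p' =>
    rename_i y
    refine ⟨y, hadj, ?_⟩
    have h1 : G.dist y w ≤ p'.length := SimpleGraph.dist_le p'
    have h2 : p'.length = k := by simpa using hp
    have h3 := hG.dist_triangle (u := x) (v := y) (w := w)
    have h4 : G.dist x y = 1 := SimpleGraph.dist_eq_one_iff_adj.mpr hadj
    omega

theorem dist_step (hG : G.Connected) {x y : V} (hadj : G.Adj x y) (w : V) :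
    G.dist x w ≤ 1 + G.dist y w := by
  have h3 := hG.dist_triangle (u := x) (v := y) (w := w)
  have h4 : G.dist x y = 1 := SimpleGraph.dist_eq_one_iff_adj.mpr hadj
  omega

/-- the gate property: a nearest point of a geodesic lies on the way to its ends -/
theorem gate (hG : G.IsTree) (d : ℕ) (v : ℕ → V)
    (hv : ∀ i j, i ≤ j → j ≤ d → G.dist (v i) (v j) = j - i) (t : ℕ) (ht : t ≤ d) :
    ∀ k x, G.dist x (v t) = k → (∀ j ≤ d, k ≤ G.dist x (v j)) → G.dist (v 0) x = k + t := by
  have hconn := hG.connected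
  intro k
  induction k using Nat.strong_induction_on with
  | _ k ih =>
    intro x hx hmin
    rcases Nat.eq_zero_or_pos k with hk | hk
    · subst hk
      rw [hconn.dist_eq_zero_iff] at hx
      rw [hx, hv 0 t (by omega) ht]
      omega
    · obtain ⟨m, rfl⟩ : ∃ m, k = m + 1 := ⟨k - 1, by omega⟩
      obtain ⟨y, hxy, hy⟩ := exists_closer hconn hx
      have hmy : ∀ j ≤ d, m ≤ G.dist y (v j) := by
        intro j hj
        have h1 := dist_step hconn hxy (v j)
        have h2 := hmin j hj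
        omega
      have h0 := ih m (by omega) y hy hmy
      rcases hG.dist_eq_dist_add_one_of_adj (v 0) hxy with h1 | h1
      · omega
      · exfalso
        rcases Nat.eq_zero_or_pos m with hm | hm
        · subst hm
          rw [hconn.dist_eq_zero_iff] at hy
          subst hy
          rcases Nat.eq_zero_or_pos t with ht0 | ht0
          · subst ht0
            omega
          · have h2 := hv 0 (t - 1) (by omega) (by omega)
            have h3 := hv (t - 1) t (by omega) ht
            have h4 : G.Adj (v (t - 1)) (v t) :=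
              SimpleGraph.dist_eq_one_iff_adj.mp (by omega)
            have h5 := closer_unique hG (r := v 0) hxy h4 (by omega) (by omega)
            have h6 := hmin (t - 1) (by omega)
            rw [h5, SimpleGraph.dist_self] at h6
            omega
        · obtain ⟨l, rfl⟩ : ∃ l, m = l + 1 := ⟨m - 1, by omega⟩
          obtain ⟨z, hyz, hz⟩ := exists_closer hconn hy
          have hmz : ∀ j ≤ d, l ≤ G.dist z (v j) := by
            intro j hj
            have h2 := dist_step hconn hyz (v j)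
            have h3 := hmy j hj
            omega
          have h2 := ih l (by omega) z hz hmz
          have h5 := closer_unique hG (r := v 0) hxy hyz.symm (by omega) (by omega)
          rw [h5] at hx
          omega

theorem geodesic (hG : G.Connected) (a b : V) (d : ℕ) (hd : G.dist a b = d) :
    ∃ v : ℕ → V, ∀ i j, i ≤ j → j ≤ d → G.dist (v i) (v j) = j - i := by
  obtain ⟨p, hp⟩ := hG.exists_walk_length_eq_dist a b
  have hle : ∀ m i, i + m ≤ d → G.dist (p.getVert i) (p.getVert (i + m)) ≤ m := by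
    intro m
    induction m with
    | zero => intro i _; simp
    | succ m ih =>
      intro i hi
      have h1 := ih i (by omega)
      have h2 : G.Adj (p.getVert (i + m)) (p.getVert (i + m + 1)) :=
        p.adj_getVert_succ (by omega)
      have h3 : G.dist (p.getVert (i + m)) (p.getVert (i + m + 1)) = 1 :=
        SimpleGraph.dist_eq_one_iff_adj.mpr h2
      have h4 := hG.dist_triangle (u := p.getVert i) (v := p.getVert (i + m))
        (w := p.getVert (i + m + 1))
      have h5 : i + (m + 1) = i + m + 1 := by omega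
      rw [h5]
      omega
  refine ⟨p.getVert, ?_⟩
  intro i j hij hjd
  have h1 := hle (j - i) i (by omega)
  have h2 := hle i 0 (by omega)
  have h3 := hle (d - j) j (by omega)
  have e1 : i + (j - i) = j := by omega
  have e2 : j + (d - j) = p.length := by omega
  rw [e1] at h1
  rw [e2, SimpleGraph.Walk.getVert_length] at h3
  rw [Nat.zero_add, SimpleGraph.Walk.getVert_zero] at h2
  have h4 := hG.dist_triangle (u := a) (v := p.getVert i) (w := b)
  have h5 := hG.dist_triangle (u := p.getVert i) (v := p.getVert j) (w := b)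
  omega

/-- the main construction -/
theorem tree_broadcast [Fintype V] (hG : G.IsTree) (hn : 2 ≤ Fintype.card V) :
    ∃ f : V → ℕ, IsDominating2Broadcast G f ∧ 3 * ∑ v, f v ≤ 2 * Fintype.card V + 4 := by
  classical
  have hconn := hG.connected
  have : Nonempty V := hconn.nonempty
  have : Nontrivial V := Fintype.one_lt_card_iff_nontrivial.mp (by omega)
  have hed : G.ediam ≠ ⊤ := SimpleGraph.connected_iff_ediam_ne_top.mp hconn
  have hdist : ∀ x y, G.dist x y ≤ G.diam := fun x y => SimpleGraph.dist_le_diam hed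
  obtain ⟨a, b, hab⟩ := G.exists_dist_eq_diam
  have hd0 : G.diam ≠ 0 := SimpleGraph.connected_iff_diam_ne_zero.mp hconn
  obtain ⟨d, hd⟩ : ∃ d, d = G.diam := ⟨_, rfl⟩
  obtain ⟨v, hv⟩ := geodesic hconn a b d (by rw [hab, hd])
  have hv' : ∀ i j, i ≤ j → j ≤ d → G.dist (v (d - i)) (v (d - j)) = j - i := by
    intro i j hij hjd
    rw [SimpleGraph.dist_comm, hv (d - j) (d - i) (by omega) (by omega)]
    omega
  have hinj : ∀ i j, i ≤ d → j ≤ d → v i = v j → i = j := by
    intro i j hi hj hij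
    rcases Nat.le_total i j with h | h
    · have h1 := hv i j h hj
      rw [hij, SimpleGraph.dist_self] at h1
      omega
    · have h1 := hv j i h hi
      rw [hij, SimpleGraph.dist_self] at h1
      omega
  -- nearest points
  have hex : ∀ x : V, ∃ t, t ≤ d ∧ ∀ j ≤ d, G.dist x (v t) ≤ G.dist x (v j) := by
    intro x
    obtain ⟨t, ht, hmin⟩ := exists_min_image (range (d + 1)) (fun t => G.dist x (v t))
      ⟨0, by simp⟩
    exact ⟨t, by rw [mem_range] at ht; omega, fun j hj => hmin j (by rw [mem_range]; omega)⟩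
  choose τ hτd hτ using hex
  have hgate : ∀ x t, t ≤ d → (∀ j ≤ d, G.dist x (v t) ≤ G.dist x (v j)) →
      G.dist (v 0) x = G.dist x (v t) + t :=
    fun x t ht hmin => gate hG d v hv t ht _ x rfl hmin
  have hgate' : ∀ x t, t ≤ d → (∀ j ≤ d, G.dist x (v t) ≤ G.dist x (v j)) →
      G.dist (v d) x = G.dist x (v t) + (d - t) := by
    intro x t ht hmin
    have h1 := gate hG d (fun i => v (d - i)) hv' (d - t) (by omega) (G.dist x (v t)) x
      (by
        have : d - (d - t) = t := by omega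
        simp only [this])
      (fun j hj => hmin (d - j) (by omega))
    simpa using h1
  have huniq : ∀ x t, t ≤ d → (∀ j ≤ d, G.dist x (v t) ≤ G.dist x (v j)) → τ x = t := by
    intro x t ht hmin
    have h1 := hgate x t ht hmin
    have h2 := hgate x (τ x) (hτd x) (hτ x)
    have h3 := hmin (τ x) (hτd x)
    have h4 := hτ x t ht
    omega
  obtain ⟨κ, hκ⟩ : ∃ κ : V → ℕ, ∀ x, κ x = G.dist x (v (τ x)) := ⟨_, fun x => rfl⟩
  obtain ⟨h, hh⟩ : ∃ h : ℕ → ℕ, ∀ t, h t = (univ.filter (fun x => τ x = t)).sup κ :=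
    ⟨_, fun t => rfl⟩
  have hκh : ∀ x, κ x ≤ h (τ x) := by
    intro x
    rw [hh]
    exact le_sup (f := κ) (by simp)
  have hl : ∀ t < d + 1, h t ≤ t := by
    intro t ht
    rw [hh]
    apply Finset.sup_le
    intro x hx
    rw [mem_filter] at hx
    have h1 := hgate' x (τ x) (hτd x) (hτ x)
    have h2 := hdist (v d) x
    have h3 := hκ x
    have h4 := hx.2
    omega
  have hr : ∀ t < d + 1, t + h t < d + 1 := by
    intro t ht
    have h0 : h t ≤ d - t := by
      rw [hh]
      apply Finset.sup_le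
      intro x hx
      rw [mem_filter] at hx
      have h1 := hgate x (τ x) (hτd x) (hτ x)
      have h2 := hdist (v 0) x
      have h3 := hκ x
      have h4 := hx.2
      omega
    omega
  -- the fibres are large
  have hdown : ∀ m x, ∀ j ≤ m, κ x = m → ∃ y, τ y = τ x ∧ κ y = j := by
    intro m
    induction m with
    | zero => intro x j hj hx; exact ⟨x, rfl, by omega⟩
    | succ m ih =>
      intro x j hj hx
      rcases Nat.lt_or_ge m j with hjm | hjm
      · exact ⟨x, rfl, by omega⟩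
      · have h1 : G.dist x (v (τ x)) = m + 1 := by rw [← hκ, hx]
        obtain ⟨y, hxy, hy⟩ := exists_closer hconn h1
        have h2 : τ y = τ x := by
          apply huniq y (τ x) (hτd x)
          intro i hi
          have h3 := dist_step hconn hxy (v i)
          have h4 := hτ x i hi
          omega
        obtain ⟨z, hz1, hz2⟩ := ih y j hjm (by rw [hκ, h2, hy])
        exact ⟨z, by rw [hz1, h2], hz2⟩
  have hfib : ∀ t ∈ range (d + 1), 1 + h t ≤ (univ.filter (fun x => τ x = t)).card := by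
    intro t ht
    rw [mem_range] at ht
    have hvt : τ (v t) = t := by
      apply huniq (v t) t (by omega)
      intro j hj
      rw [SimpleGraph.dist_self]
      omega
    have hne : (univ.filter (fun x => τ x = t)).Nonempty := ⟨v t, by simp [hvt]⟩
    obtain ⟨x, hx, hxs⟩ := exists_mem_eq_sup _ hne κ
    rw [mem_filter] at hx
    have hsub : range (h t + 1) ⊆ (univ.filter (fun x => τ x = t)).image κ := by
      intro j hj
      rw [mem_range] at hj
      obtain ⟨y, hy1, hy2⟩ := hdown (κ x) x j (by rw [← hxs, ← hh]; omega) rfl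
      rw [mem_image]
      exact ⟨y, by rw [mem_filter]; exact ⟨mem_univ _, by rw [hy1, hx.2]⟩, hy2⟩
    have h1 := card_le_card hsub
    rw [card_range] at h1
    have h2 := card_image_le (s := univ.filter (fun x => τ x = t)) (f := κ)
    omega
  have hcount : ∑ t ∈ range (d + 1), (1 + h t) ≤ Fintype.card V := by
    have h1 : Fintype.card V = ∑ t ∈ range (d + 1), (univ.filter (fun x => τ x = t)).card := by
      rw [← card_univ]
      apply card_eq_sum_card_fiberwise
      intro x _
      simp only [coe_range, Set.mem_Iio]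
      have := hτd x
      omega
    rw [h1]
    exact sum_le_sum hfib
  obtain ⟨F, F1, F2, F3⟩ := path_theorem (d + 1) h (by omega) hl hr
  obtain ⟨f, hf⟩ : ∃ f : V → ℕ, ∀ x, f x = ∑ c ∈ range (d + 1), if v c = x then F c else 0 :=
    ⟨_, fun x => rfl⟩
  have hfv : ∀ c, c ≤ d → f (v c) = F c := by
    intro c hc
    rw [hf]
    rw [sum_eq_single_of_mem c (by rw [mem_range]; omega)]
    · simp
    · intro c' hc' hne
      rw [mem_range] at hc'
      rw [if_neg]
      intro heq
      exact hne (hinj c' c (by omega) hc heq)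
  refine ⟨f, ⟨?_, ?_⟩, ?_⟩
  · intro x
    by_cases hx : ∃ c, c ≤ d ∧ v c = x
    · obtain ⟨c, hc, rfl⟩ := hx
      rw [hfv c hc]
      have := F1 c
      omega
    · rw [hf, sum_eq_zero]
      · omega
      · intro c hc
        rw [mem_range] at hc
        rw [if_neg]
        intro heq
        exact hx ⟨c, by omega, heq⟩
  · intro x
    obtain ⟨c₁, c₂, hne, hc1, hc2⟩ := F2 (τ x) (by have := hτd x; omega)
    have key : ∀ c, Cov (d + 1) h F c (τ x) → 0 < f (v c) ∧ G.dist x (v c) ≤ f (v c) := by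
      intro c hc
      obtain ⟨k1, k2, k3, k4⟩ := hc
      rw [hfv c (by omega)]
      refine ⟨k2, ?_⟩
      have h1 := hconn.dist_triangle (u := x) (v := v (τ x)) (w := v c)
      have h2 := hκ x
      have h3 := hκh x
      rcases Nat.le_total (τ x) c with h4 | h4
      · have h5 := hv (τ x) c h4 (by omega)
        omega
      · have h5 := hv c (τ x) h4 (hτd x)
        rw [SimpleGraph.dist_comm] at h5
        omega
    refine ⟨v c₁, v c₂, ?_, (key c₁ hc1).1, (key c₂ hc2).1, (key c₁ hc1).2, (key c₂ hc2).2⟩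
    intro heq
    exact hne (hinj c₁ c₂ (by have := hc1.1; omega) (by have := hc2.1; omega) heq)
  · have h1 : ∑ x, f x = ∑ c ∈ range (d + 1), F c := by
      simp_rw [hf]
      rw [sum_comm]
      apply sum_congr rfl
      intro c _
      simp
    rw [h1]
    omega

end tree

/-- **Upper bound for the 2-broadcast domination number of trees** (conjecture of Henning,
MacGillivray and Yang). Every tree `T` of order `n ≥ 2` has a dominating 2-broadcast, and
`γ_{b_2}(T) ≤ (2n + 4) / 3`. -/
theorem result (V : Type*) [Fintype V] (T : SimpleGraph V) (hT : T.IsTree)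
    (hn : 2 ≤ Fintype.card V) :
    (∃ f : V → ℕ, IsDominating2Broadcast T f) ∧
      (gammaB2 T : ℚ) ≤ (2 * (Fintype.card V : ℚ) + 4) / 3 := by
  obtain ⟨f, hf, hcost⟩ := tree_broadcast hT hn
  refine ⟨⟨f, hf⟩, ?_⟩
  have h1 : gammaB2 T ≤ ∑ v, f v := Nat.sInf_le ⟨f, hf, rfl⟩
  have h2 : 3 * gammaB2 T ≤ 2 * Fintype.card V + 4 := by omega
  rw [le_div_iff₀ (by norm_num)]
  have h3 : ((3 * gammaB2 T : ℕ) : ℚ) ≤ ((2 * Fintype.card V + 4 : ℕ) : ℚ) := by exact_mod_cast h2
  push_cast at h3
  linarith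

end Pool.Agent.Results.MP_888150_co.TreeTwoBroadcast
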